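import Pool.Agent.Helper9.TB.RDefs2
import Pool.Agent.Helper11.TB.Exist

/-!
# The saddle conditions say that the logarithmic derivative vanishes
-/

namespace Pool.Agent.Helper48.TB

open Real MeasureTheory Filter Topology
open Pool.Agent.Helper9.TB
open Pool.Agent.Helper11.TB

/-- real part of `π tan π (u - i h)` -/
noncomputable def kr (h u : ℝ) : ℝ :=
  π * Real.sin (2 * π * u) / (Real.cosh (2 * π * h) + Real.cos (2 * π * u))

/-- minus the imaginary part of `π tan π (u - i h)` -/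
noncomputable def ki (h u : ℝ) : ℝ :=
  π * Real.sinh (2 * π * h) / (Real.cosh (2 * π * h) + Real.cos (2 * π * u))

/-- `π tan π (u - i h)` -/
noncomputable def tk (h u : ℝ) : ℂ := (kr h u : ℂ) - Complex.I * (ki h u : ℂ)

lemma kr_cont {h : ℝ} (hh : 0 < h) : Continuous (kr h) := by
  unfold kr
  apply Continuous.div
  · fun_prop
  · fun_prop
  · exact fun u => (arg_pos' hh u).ne'

lemma ki_cont {h : ℝ} (hh : 0 < h) : Continuous (ki h) := by
  unfold ki
  apply Continuous.div
  · fun_prop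
  · fun_prop
  · exact fun u => (arg_pos' hh u).ne'

lemma tk_cont {h : ℝ} (hh : 0 < h) : Continuous (tk h) := by
  unfold tk
  have h1 := kr_cont hh
  have h2 := ki_cont hh
  fun_prop

lemma kr_int {h : ℝ} (hh : 0 < h) (a b : ℝ) : IntervalIntegrable (kr h) volume a b :=
  (kr_cont hh).intervalIntegrable a b

lemma ki_int {h : ℝ} (hh : 0 < h) (a b : ℝ) : IntervalIntegrable (ki h) volume a b :=
  (ki_cont hh).intervalIntegrable a b

lemma tk_int {h : ℝ} (hh : 0 < h) (a b : ℝ) : IntervalIntegrable (tk h) volume a b :=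
  (tk_cont hh).intervalIntegrable a b

lemma ee_deriv {h : ℝ} (hh : 0 < h) (u : ℝ) : HasDerivAt (ee h) (-kr h u) u := by
  have h1 : HasDerivAt (fun u : ℝ => 2 * π * u) (2 * π) u := by
    simpa using (hasDerivAt_id u).const_mul (2 * π)
  have h2 : HasDerivAt (fun u : ℝ => Real.cos (2 * π * u)) (-Real.sin (2 * π * u) * (2 * π)) u :=
    HasDerivAt.comp (h₂ := Real.cos) u (Real.hasDerivAt_cos _) h1
  have h3 := (((h2.const_add (Real.cosh (2 * π * h))).const_mul 2).log (arg_pos hh u).ne').div_const 2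
  refine h3.congr_deriv ?_
  have := arg_pos' hh u
  unfold kr
  field_simp

lemma kr_integral {h : ℝ} (hh : 0 < h) (a b : ℝ) : ∫ u in a..b, kr h u = ee h a - ee h b := by
  have h1 : ∫ u in a..b, -kr h u = ee h b - ee h a := by
    apply intervalIntegral.integral_eq_sub_of_hasDerivAt
    · exact fun u _ => ee_deriv hh u
    · exact (kr_cont hh).neg.intervalIntegrable a b
  rw [intervalIntegral.integral_neg] at h1
  linarith

lemma ki_periodic (h : ℝ) : Function.Periodic (ki h) 1 := by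
  intro u
  unfold ki
  rw [show 2 * π * (u + 1) = 2 * π * u + 2 * π by ring, Real.cos_add_two_pi]

lemma kr_periodic (h : ℝ) : Function.Periodic (kr h) 1 := by
  intro u
  unfold kr
  rw [show 2 * π * (u + 1) = 2 * π * u + 2 * π by ring, Real.cos_add_two_pi, Real.sin_add_two_pi]

lemma tk_periodic (h : ℝ) : Function.Periodic (tk h) 1 := by
  intro u
  unfold tk
  rw [ki_periodic h u, kr_periodic h u]

/-- mean of the Poisson kernel -/
lemma ki_mean {h : ℝ} (hh : 0 < h) : ∫ u in (-(1 / 2) : ℝ)..(1 / 2), ki h u = π := by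
  have hpi := Real.pi_pos
  have ht : 0 < Real.tanh (π * h) := by
    rw [Real.tanh_eq_sinh_div_cosh]
    exact div_pos (Real.sinh_pos_iff.2 (by positivity)) (Real.cosh_pos _)
  have h1 := intervalIntegral.integral_eq_sub_of_hasDerivAt_of_tendsto
    (f := fun u => Real.arctan (Real.tanh (π * h) * Real.tan (π * u))) (f' := ki h)
    (a := -(1 / 2)) (b := 1 / 2) (fa := -(π / 2)) (fb := π / 2) (by norm_num)
    (fun u hu => at_deriv h (cos_pos_half hu.1 hu.2).ne') (ki_int hh _ _) ?_ ?_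
  · rw [h1]; ring
  · have t1 : Tendsto (fun u : ℝ => π * u) (𝓝[>] (-(1 / 2))) (𝓝[>] (-(π / 2))) := by
      apply tendsto_nhdsWithin_iff.2
      constructor
      · have : Tendsto (fun u : ℝ => π * u) (𝓝 (-(1 / 2))) (𝓝 (π * (-(1 / 2)))) :=
          (continuous_const.mul continuous_id).tendsto _
        rw [show π * (-(1 / 2)) = -(π / 2) by ring] at this
        exact this.mono_left nhdsWithin_le_nhds
      · filter_upwards [self_mem_nhdsWithin] with u hu
        rw [Set.mem_Ioi] at hu ⊢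
        nlinarith only [hu, hpi]
    have t2 := Real.tendsto_tan_neg_pi_div_two.comp t1
    have t3 : Tendsto (fun u : ℝ => Real.tanh (π * h) * Real.tan (π * u)) (𝓝[>] (-(1 / 2))) atBot :=
      t2.const_mul_atBot ht
    exact (Real.tendsto_arctan_atBot.mono_right nhdsWithin_le_nhds).comp t3
  · have t1 : Tendsto (fun u : ℝ => π * u) (𝓝[<] (1 / 2)) (𝓝[<] (π / 2)) := by
      apply tendsto_nhdsWithin_iff.2
      constructor
      · have : Tendsto (fun u : ℝ => π * u) (𝓝 (1 / 2)) (𝓝 (π * (1 / 2))) :=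
          (continuous_const.mul continuous_id).tendsto _
        rw [show π * (1 / 2) = π / 2 by ring] at this
        exact this.mono_left nhdsWithin_le_nhds
      · filter_upwards [self_mem_nhdsWithin] with u hu
        rw [Set.mem_Iio] at hu ⊢
        nlinarith
    have t2 := Real.tendsto_tan_pi_div_two.comp t1
    have t3 : Tendsto (fun u : ℝ => Real.tanh (π * h) * Real.tan (π * u)) (𝓝[<] (1 / 2)) atTop :=
      t2.const_mul_atTop ht
    exact (Real.tendsto_arctan_atTop.mono_right nhdsWithin_le_nhds).comp t3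

lemma tk_integral {h : ℝ} (hh : 0 < h) (a b : ℝ) : ∫ u in a..b, tk h u =
    ((ee h a - ee h b : ℝ) : ℂ) - Complex.I * ((∫ u in a..b, ki h u : ℝ) : ℂ) := by
  unfold tk
  rw [intervalIntegral.integral_sub, intervalIntegral.integral_const_mul,
    intervalIntegral.integral_ofReal, intervalIntegral.integral_ofReal, kr_integral hh]
  · exact (Complex.continuous_ofReal.comp (kr_cont hh)).intervalIntegrable _ _
  · exact (continuous_const.mul (Complex.continuous_ofReal.comp (ki_cont hh))).intervalIntegrable _ _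

/-- the integral over a period -/
lemma tk_period {h : ℝ} (hh : 0 < h) (a : ℝ) : ∫ u in a..(a + 1), tk h u = -(π * Complex.I) := by
  rw [(tk_periodic h).intervalIntegral_add_eq a (-(1 / 2)), tk_integral hh,
    show (-(1 / 2) : ℝ) + 1 = 1 / 2 by norm_num, ki_mean hh, ee_neg]
  simp [mul_comm]

lemma pt_q (u h : ℝ) : (π : ℂ) * pt u h = (π * u : ℂ) - (π * h : ℂ) * Complex.I := by
  unfold pt; push_cast; ring

lemma cosfac (h u : ℝ) : ((Real.cosh (2 * π * h) + Real.cos (2 * π * u) : ℝ) : ℂ) =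
    2 * Complex.cos (π * pt u (-h)) * Complex.cos (π * pt u h) := by
  have e1 : ((Real.cosh (2 * π * h) : ℝ) : ℂ) = Complex.cos (π * pt u (-h) - π * pt u h) := by
    rw [Complex.ofReal_cosh, ← Complex.cos_mul_I]
    congr 1
    unfold pt; push_cast; ring
  have e2 : ((Real.cos (2 * π * u) : ℝ) : ℂ) = Complex.cos (π * pt u (-h) + π * pt u h) := by
    rw [Complex.ofReal_cos]
    congr 1
    unfold pt; push_cast; ring
  rw [Complex.ofReal_add, e1, e2, Complex.cos_sub, Complex.cos_add]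
  ring

lemma sinfac (h u : ℝ) : ((Real.sin (2 * π * u) : ℝ) : ℂ) - Complex.I *
    ((Real.sinh (2 * π * h) : ℝ) : ℂ) =
    2 * Complex.cos (π * pt u (-h)) * Complex.sin (π * pt u h) := by
  have e1 : Complex.I * ((Real.sinh (2 * π * h) : ℝ) : ℂ) =
      Complex.sin (π * pt u (-h) - π * pt u h) := by
    rw [Complex.ofReal_sinh, mul_comm, ← Complex.sin_mul_I]
    congr 1
    unfold pt; push_cast; ring
  have e2 : ((Real.sin (2 * π * u) : ℝ) : ℂ) = Complex.sin (π * pt u (-h) + π * pt u h) := by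
    rw [Complex.ofReal_sin]
    congr 1
    unfold pt; push_cast; ring
  rw [e1, e2, Complex.sin_sub, Complex.sin_add]
  ring

lemma cos_ne {h : ℝ} (hh : 0 < h) (u : ℝ) : Complex.cos (π * pt u h) ≠ 0 := by
  intro h0
  have h1 := cosfac h u
  rw [h0, mul_zero, Complex.ofReal_eq_zero] at h1
  exact (arg_pos' hh u).ne' h1

lemma cos_ne' {h : ℝ} (hh : 0 < h) (u : ℝ) : Complex.cos (π * pt u (-h)) ≠ 0 := by
  intro h0
  have h1 := cosfac h u
  rw [h0, mul_zero, zero_mul, Complex.ofReal_eq_zero] at h1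
  exact (arg_pos' hh u).ne' h1

lemma tan_eq {h : ℝ} (hh : 0 < h) (u : ℝ) :
    π * (Complex.sin (π * pt u h) / Complex.cos (π * pt u h)) = tk h u := by
  have h1 := cosfac h u
  have h2 := sinfac h u
  have n1 := cos_ne hh u
  have n2 := cos_ne' hh u
  have h3 : ((Real.cosh (2 * π * h) + Real.cos (2 * π * u) : ℝ) : ℂ) ≠ 0 := by
    rw [Complex.ofReal_ne_zero]
    exact (arg_pos' hh u).ne'
  have e : tk h u = π * ((((Real.sin (2 * π * u) : ℝ) : ℂ) - Complex.I *
    ((Real.sinh (2 * π * h) : ℝ) : ℂ)) / ((Real.cosh (2 * π * h) + Real.cos (2 * π * u) : ℝ) : ℂ)) := by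
    unfold tk kr ki
    rw [Complex.ofReal_div, Complex.ofReal_div, Complex.ofReal_mul, Complex.ofReal_mul]
    field_simp
  rw [e, h2, h1]
  field_simp

/-- the integrand as a sum of two tangents -/
lemma integrand_eq {h : ℝ} (hh : 0 < h) (ξ x : ℝ) :
    dLy (pt ξ h) / (Ly (pt ξ h) - ((2 * Real.cos (2 * π * x) : ℝ) : ℂ)) =
      -(tk h (ξ + x) + tk h (ξ - x)) := by
  rw [← tan_eq hh, ← tan_eq hh]
  have n1 := cos_ne hh (ξ + x)
  have n2 := cos_ne hh (ξ - x)
  have e1 : dLy (pt ξ h) = 4 * π * Complex.sin (π * pt (ξ + x) h + π * pt (ξ - x) h) := by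
    unfold dLy
    congr 2
    unfold pt; push_cast; ring
  have e2 : Ly (pt ξ h) = -2 * Complex.cos (π * pt (ξ + x) h + π * pt (ξ - x) h) := by
    unfold Ly
    congr 2
    unfold pt; push_cast; ring
  have e3 : ((2 * Real.cos (2 * π * x) : ℝ) : ℂ) =
      2 * Complex.cos (π * pt (ξ + x) h - π * pt (ξ - x) h) := by
    push_cast
    congr 2
    unfold pt; push_cast; ring
  rw [e1, e2, e3, Complex.sin_add, Complex.cos_add, Complex.cos_sub]
  set c1 := Complex.cos (π * pt (ξ + x) h)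
  set c2 := Complex.cos (π * pt (ξ - x) h)
  set s1 := Complex.sin (π * pt (ξ + x) h)
  set s2 := Complex.sin (π * pt (ξ - x) h)
  have e4 : -2 * (c1 * c2 - s1 * s2) - 2 * (c1 * c2 + s1 * s2) = -4 * (c1 * c2) := by ring
  rw [e4]
  field_simp

/-- the integral of the integrand over `[0, α]` -/
lemma int_zero {h : ℝ} (hh : 0 < h) (ξ α : ℝ) :
    ∫ x in (0 : ℝ)..α, dLy (pt ξ h) / (Ly (pt ξ h) - ((2 * Real.cos (2 * π * x) : ℝ) : ℂ)) =
      -∫ u in (ξ - α)..(ξ + α), tk h u := by
  simp_rw [integrand_eq hh]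
  have c1 : Continuous (fun x => tk h (ξ + x)) := (tk_cont hh).comp (by fun_prop)
  have c2 : Continuous (fun x => tk h (ξ - x)) := (tk_cont hh).comp (by fun_prop)
  rw [intervalIntegral.integral_neg, intervalIntegral.integral_add (c1.intervalIntegrable _ _)
    (c2.intervalIntegrable _ _), intervalIntegral.integral_comp_add_left,
    intervalIntegral.integral_comp_sub_left, add_zero, sub_zero, add_comm (∫ u in ξ..(ξ + α), tk h u),
    intervalIntegral.integral_add_adjacent_intervals (tk_int hh _ _) (tk_int hh _ _)]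

/-- reflection `α ↦ 1 - α` -/
lemma int_refl {h : ℝ} (hh : 0 < h) (ξ τ : ℝ) :
    ∫ u in (ξ - (1 - τ))..(ξ + (1 - τ)), tk h u =
      -(2 * π * Complex.I) - ∫ u in (ξ - τ)..(ξ + τ), tk h u := by
  have h1 : (∫ u in (ξ - (1 - τ))..(ξ + (1 - τ)), tk h u) + ∫ u in (ξ + (1 - τ))..(ξ + τ + 1), tk h u
      = ∫ u in (ξ - (1 - τ))..(ξ + τ + 1), tk h u :=
    intervalIntegral.integral_add_adjacent_intervals (tk_int hh _ _) (tk_int hh _ _)
  have h2 : (∫ u in (ξ - (1 - τ))..(ξ + τ), tk h u) + ∫ u in (ξ + τ)..(ξ + τ + 1), tk h u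
      = ∫ u in (ξ - (1 - τ))..(ξ + τ + 1), tk h u :=
    intervalIntegral.integral_add_adjacent_intervals (tk_int hh _ _) (tk_int hh _ _)
  have h4 : (∫ u in (ξ - τ)..(ξ + τ), tk h u) = ∫ u in (ξ + (1 - τ))..(ξ + τ + 1), tk h u := by
    have := intervalIntegral.integral_comp_add_right (a := ξ - τ) (b := ξ + τ) (fun u => tk h u) 1
    rw [show ξ - τ + 1 = ξ + (1 - τ) by ring] at this
    rw [← this]
    congr 1
    funext u
    rw [tk_periodic h u]
  have h5 := tk_period hh (ξ + τ)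
  have h6 := tk_period hh (ξ - (1 - τ))
  rw [show ξ - (1 - τ) + 1 = ξ + τ by ring] at h6
  rw [h5, h6] at h2
  rw [h4, ← sub_eq_zero]
  linear_combination h1 - h2

/-- the window integral in terms of the real quantities -/
lemma win_tk {h : ℝ} (hh : 0 < h) (ξ : ℝ) :
    ∫ u in (ξ - x0 h ξ)..(ξ + x0 h ξ), tk h u = ((GG1 h ξ : ℝ) : ℂ) - Complex.I *
      ((∫ u in (ξ - x0 h ξ)..(ξ + x0 h ξ),
      π * Real.sinh (2 * π * h) / (Real.cosh (2 * π * h) + Real.cos (2 * π * u)) : ℝ) : ℂ) := by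
  rw [tk_integral hh]
  rfl

lemma saddle_GG1 {ρ c h ξ : ℝ} (hρ : 1 ≤ ρ) (hc : c ≤ 1 / 4) (S : Saddle ρ c h ξ) :
    GG1 h ξ = 2 * π * ρ * h := by
  have hh := S.hpos
  have hpi := Real.pi_pos
  have hC := saddle_C hρ S
  have h0 := S.xpos.le
  have h1 : ξ ≤ 1 / 4 := by linarith [S.xlt]
  have e1 := cosh_GG1 hh hC h0 h1
  have e2 := S.s1
  have n1 := GG1_nonneg hh hC h0 h1
  have n2 : 0 ≤ 2 * π * ρ * h := by positivity
  apply le_antisymm
  · exact le_of_cosh n1 n2 (by rw [e1, e2])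
  · exact le_of_cosh n2 n1 (by rw [e1, e2])

theorem PP_saddle1 {r : ℕ} (hr : 4 ≤ r) {h ξ : ℝ} (S : Saddle r (1 / r) h ξ) :
    PP r 0 (1 - x0 h ξ) (pt ξ h) = 0 := by
  have hh := S.hpos
  have hr4 : (4 : ℝ) ≤ r := by exact_mod_cast hr
  have hr0 : (r : ℝ) ≠ 0 := by positivity
  have hc : (1 / r : ℝ) ≤ 1 / 4 := one_div_le_one_div_of_le (by norm_num) hr4
  have hG := saddle_GG1 (by linarith) hc S
  have e2 := S.s2
  unfold PP
  rw [int_zero hh, int_refl hh, win_tk hh, hG, ← e2]
  have e3 : 2 * π * r * (1 / r - ξ) = 2 * π * (1 - r * ξ) := by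
    field_simp
  rw [e3]
  unfold pt
  push_cast
  linear_combination (-(2 * π * r * h) : ℂ) * Complex.I_sq

theorem PP_saddle2 {r : ℕ} (hr : 4 ≤ r) {h ξ : ℝ} (S : Saddle (r / 2) (1 / r) h ξ) :
    PP r (x0 h ξ) (1 - x0 h ξ) (pt ξ h) = 0 := by
  have hh := S.hpos
  have hr4 : (4 : ℝ) ≤ r := by exact_mod_cast hr
  have hr0 : (r : ℝ) ≠ 0 := by positivity
  have hc : (1 / r : ℝ) ≤ 1 / 4 := one_div_le_one_div_of_le (by norm_num) hr4
  have hG := saddle_GG1 (by linarith) hc S
  have e2 := S.s2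
  have hcont : Continuous (fun x : ℝ => dLy (pt ξ h) /
      (Ly (pt ξ h) - ((2 * Real.cos (2 * π * x) : ℝ) : ℂ))) := by
    simp_rw [integrand_eq hh]
    exact (((tk_cont hh).comp (by fun_prop)).add ((tk_cont hh).comp (by fun_prop))).neg
  have h1 := intervalIntegral.integral_interval_sub_left
    (hcont.intervalIntegrable (μ := volume) 0 (1 - x0 h ξ))
    (hcont.intervalIntegrable (μ := volume) 0 (x0 h ξ))
  unfold PP
  rw [← h1, int_zero hh, int_zero hh, int_refl hh, win_tk hh, hG, ← e2]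
  have e3 : 2 * π * (r / 2) * (1 / r - ξ) = π * (1 - r * ξ) := by
    field_simp
  rw [e3]
  unfold pt
  push_cast
  linear_combination (-(2 * π * r * h) : ℂ) * Complex.I_sq

end Pool.Agent.Helper48.TB
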